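import Pool.Agent.Helper79.GT.St5

/-! Module ARX of project GT (the arena and the functions of numbers). -/

set_option autoImplicit false

namespace Pool.Agent.Helper82.GT

open Pool.Agent.Helper19.SK Pool.Agent.Helper73.DC Pool.Agent.Helper79.GS Pool.Agent.Helper79.GT
  Finset
open scoped Classical

private lemma bn_cB {c : ℕ} (hc : c ≤ 1) : bn (cB c) = c := by
  interval_cases c <;> simp [bn, cB]

private lemma not_cB {c : ℕ} (hc : c ≤ 1) : (!(cB c)) = cB (1 - c) := by
  interval_cases c <;> simp [cB]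

private lemma cB_inj {p c : ℕ} (hp : p ≤ 1) (hc : c ≤ 1) : cB p = cB c ↔ p = c := by
  constructor
  · intro h
    rw [← bn_cB hp, ← bn_cB hc, h]
  · intro h
    rw [h]

theorem hARX : Pool.Agent.Helper79.GT.StARX := by
  intro X hX w c u x hc
  have hc1 : 1 - c ≤ 1 := by omega
  have h1 : (!(cB c)) = cB (1 - c) := not_cB hc
  have hmv : ∀ (d a b : ℕ), d ≤ 1 → ((AX X w).mv (cB d) a b ↔ X.mv (NN X.e w) w d a b) := by
    intro d a b hd
    show X.mv (NN X.e w) w (bn (cB d)) a b ↔ _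
    rw [bn_cB hd]
  have hs : ∀ a, (AX X w).s a = (X.ar (NN X.e w) w 1 a : ℤ) - (X.ar (NN X.e w) w 0 a : ℤ) :=
    fun a => rfl
  have ha0 := hX.har w 0 u (by omega)
  have ha1 := hX.har w 1 u (by omega)
  have hH : ∀ p y : ℕ, p ≤ 1 → ((cB p, y) ∈ HX X w ↔ X.H (NN X.e w) w p y) := by
    intro p y hp
    show X.H (NN X.e w) w (bn (cB p)) y ↔ _
    rw [bn_cB hp]
  refine ⟨h1, hmv c u x hc, ?_, ?_, ?_, ?_, ?_, ?_, ?_, ?_⟩
  · rw [h1]
    exact hmv _ u x hc1
  · unfold rv rvX
    rw [h1, hmv c u x hc, hmv _ x u hc1]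
  · unfold ahead ahX
    rw [hs u]
    interval_cases c
    · simp [cB]
    · simp [cB]
  · unfold mg idX
    rw [hs u]
    interval_cases c
    · simp [cB]
    · simp [cB]
  · unfold idX
    split_ifs
    · omega
    · omega
  · intro h
    exact hX.hmv w c u x h
  · rw [hs u, hs x]
    omega
  · intro p hp
    refine ⟨hH p x hp, ?_⟩
    intro a b
    show ((cB p, x) ∈ HX X w ∨ (x = a ∧ (X.sk = true → cB p = !(cB c))) ∨
      (x = b ∧ (X.sk = true → cB p = cB c))) ↔ VNX X (NN X.e w) w c a b p x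
    unfold VNX
    rw [hH p x hp, h1, cB_inj hp hc1, cB_inj hp hc]

end Pool.Agent.Helper82.GT
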