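import Pool.Agent.Helper79.GT.St3

/-! Module GKL of project GT (ko captures). -/

set_option autoImplicit false

namespace Pool.Agent.Helper82.GT

open Pool.Agent.Helper19.SK Pool.Agent.Helper79.GS Pool.Agent.Helper79.GT

private lemma area_le {V : Type} [Finite V] (G : SimpleGraph V) (P : Pos V) (c : Bool) :
    area G P c ≤ Nat.card V := by
  unfold area
  rw [← Set.ncard_univ]
  exact Set.ncard_le_ncard (Set.subset_univ _) (Set.toFinite _)

theorem hGKL (hKRV : StKRV) (hGNM : StGNM) (hGRM : StGRM) : Pool.Agent.Helper79.GT.StGKL := by
  intro V _ G tc
  refine ⟨?_, ?_, ?_, ?_⟩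
  · intro b b' h1 h2
    obtain ⟨e, hko, hb'⟩ := hKRV V G true b b' ⟨h1, h2⟩
    obtain ⟨n1, n2, n3, n4, n5, n6⟩ := (hGNM V G).2 b e hko
    rw [← hb'] at n1 n2 n3 n4 n5 n6
    have m1 : (num b' true : ℤ) = num b true + 1 := by exact_mod_cast n1
    have m2 : (num b false : ℤ) = num b' false + 1 := by exact_mod_cast n2
    have m3 : (terr G b' true : ℤ) = terr G b true + 1 := by exact_mod_cast n3
    have m4 : (terr G b false : ℤ) = terr G b' false + 1 := by exact_mod_cast n4
    have m5 : (area G b' true : ℤ) = area G b true + 2 := by exact_mod_cast n5
    have m6 : (area G b false : ℤ) = area G b' false + 2 := by exact_mod_cast n6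
    refine ⟨?_, ?_, ?_, ?_⟩
    · show (area G b' true : ℤ) - area G b' false = (area G b true : ℤ) - area G b false + 4
      omega
    · show capd true b b' = 1
      unfold capd
      simp
      omega
    · show capd false b' b = -1
      unfold capd
      simp
      omega
    · intro d
      cases tc
      · show (if false = true then (terr G b' true : ℤ) - terr G b' false + (d + 1)
          else (area G b' true : ℤ) - area G b' false) =
          (if false = true then (terr G b true : ℤ) - terr G b false + d
          else (area G b true : ℤ) - area G b false) + ((if false = true then 3 else 4 : ℕ) : ℤ)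
        simp
        omega
      · show (if true = true then (terr G b' true : ℤ) - terr G b' false + (d + 1)
          else (area G b' true : ℤ) - area G b' false) =
          (if true = true then (terr G b true : ℤ) - terr G b false + d
          else (area G b true : ℤ) - area G b false) + ((if true = true then 3 else 4 : ℕ) : ℤ)
        simp
        omega
  · intro b
    have a1 := area_le G b true
    have a2 := area_le G b false
    show |(area G b true : ℤ) - area G b false| ≤ (Nat.card V : ℤ)
    rw [abs_le]
    constructor <;> omega
  · intro c b b' h
    obtain ⟨e, he, hb', _⟩ := h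
    obtain ⟨r1, r2, r3, r4, _⟩ := hGRM V G c b e he
    rw [← hb'] at r1 r2
    show |capd c b b'| ≤ (Nat.card V : ℤ)
    unfold capd
    rw [abs_le]
    cases c
    · simp only [Bool.not_false] at r2 r4
      constructor <;> simp <;> omega
    · simp only [Bool.not_true] at r2 r4
      constructor <;> simp <;> omega
  · split_ifs <;> omega

end Pool.Agent.Helper82.GT
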